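import Pool.Agent.H11.EL.Targets

/-!
# el_modules, module EX
-/

set_option autoImplicit false

open scoped commutatorElement

namespace Pool.Agent.H14.EL

open Pool.Agent.H11.EL

theorem ex_closure {r : ℕ} (w : FreeGroup (Fin r)) {G : Type} [Group G] {g : G}
    (hg : g ∈ Subgroup.closure (Set.range (fun f : Fin r → G => FreeGroup.lift f w))) :
    ∃ L, PW w L g := by
  induction hg using Subgroup.closure_induction with
  | mem x hx =>
    obtain ⟨f, rfl⟩ := hx
    exact ⟨1, PW.val f⟩
  | one => exact ⟨0, PW.one 0⟩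
  | mul x y _ _ hx hy =>
    obtain ⟨k, hk⟩ := hx
    obtain ⟨l, hl⟩ := hy
    exact ⟨k + l, hk.mul hl⟩
  | inv x _ hx =>
    obtain ⟨k, hk⟩ := hx
    exact ⟨k, hk.inv⟩

theorem ex_normal {r : ℕ} (w : FreeGroup (Fin r)) (G : Type) [Group G] :
    (Subgroup.closure (Set.range (fun f : Fin r → G => FreeGroup.lift f w))).Normal := by
  constructor
  intro n hn g
  induction hn using Subgroup.closure_induction with
  | mem x hx =>
    obtain ⟨f, rfl⟩ := hx
    refine Subgroup.subset_closure ⟨fun i => g * f i * g⁻¹, ?_⟩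
    have h : FreeGroup.lift (fun i => g * f i * g⁻¹) =
        (MulAut.conj g).toMonoidHom.comp (FreeGroup.lift f) := by
      ext i
      simp
    show FreeGroup.lift (fun i => g * f i * g⁻¹) w = _
    rw [h]
    simp
  | one => simp
  | mul x y _ _ hx hy =>
    have h : g * (x * y) * g⁻¹ = (g * x * g⁻¹) * (g * y * g⁻¹) := by group
    rw [h]
    exact Subgroup.mul_mem _ hx hy
  | inv x _ hx =>
    have h : g * x⁻¹ * g⁻¹ = (g * x * g⁻¹)⁻¹ := by group
    rw [h]
    exact Subgroup.inv_mem _ hx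

theorem pf_ex : T_EX := by
  intro r w hw
  set F := FreeGroup (Fin 2) with hF
  set V : Subgroup F := Subgroup.closure (Set.range (fun f : Fin r → F => FreeGroup.lift f w))
    with hV
  have hVn : V.Normal := ex_normal w F
  have hDn : (derivedSeries F 2).Normal := derivedSeries_normal F 2
  set N : Subgroup F := derivedSeries F 2 ⊔ V with hN
  have hNn : N.Normal := Subgroup.sup_normal _ _
  have h1 : derivedSeries (F ⧸ N) 2 = ⊥ := by
    rw [← map_derivedSeries_eq (QuotientGroup.mk'_surjective N) 2, Subgroup.map_eq_bot_iff,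
      QuotientGroup.ker_mk']
    exact le_sup_left
  have h2 : ∀ f : Fin r → F ⧸ N, FreeGroup.lift f w = 1 := by
    intro f
    choose f' hf' using fun i => QuotientGroup.mk'_surjective N (f i)
    have h : FreeGroup.lift f = (QuotientGroup.mk' N).comp (FreeGroup.lift f') := by
      refine FreeGroup.ext_hom _ _ fun i => ?_
      rw [FreeGroup.lift_apply_of, MonoidHom.comp_apply, FreeGroup.lift_apply_of, hf']
    rw [h]
    show QuotientGroup.mk' N (FreeGroup.lift f' w) = 1
    rw [← MonoidHom.mem_ker, QuotientGroup.ker_mk']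
    exact (le_sup_right : V ≤ N) (Subgroup.subset_closure ⟨f', rfl⟩)
  have h3 := hw (F ⧸ N) h1 h2
  have h4 : ⁅(FreeGroup.of 0 : F), (FreeGroup.of 1 : F)⁆ ∈ N := by
    have h5 := h3 (QuotientGroup.mk' N (FreeGroup.of 0)) (QuotientGroup.mk' N (FreeGroup.of 1))
    rw [← QuotientGroup.ker_mk' N, MonoidHom.mem_ker, map_commutatorElement,
      commutatorElement_eq_one_iff_mul_comm]
    exact h5
  obtain ⟨δ, hδ, v, hv, e⟩ := Subgroup.mem_sup_of_normal_right.1 h4
  obtain ⟨L, hL⟩ := ex_closure w hv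
  refine ⟨L, δ⁻¹, Subgroup.inv_mem _ hδ, fun G _ a b => ?_⟩
  have h5 := hL.map (FreeGroup.lift ![a, b])
  have h6 : v = δ⁻¹ * ⁅(FreeGroup.of 0 : F), (FreeGroup.of 1 : F)⁆ := by
    rw [← e, inv_mul_cancel_left]
  rw [h6, map_mul, map_commutatorElement, FreeGroup.lift_apply_of, FreeGroup.lift_apply_of] at h5
  exact h5

end Pool.Agent.H14.EL
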