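import Pool.Agent.H11.EL.Targets

/-!
# el_modules, module NJ
-/

set_option autoImplicit false

open scoped commutatorElement

namespace Pool.Agent.H14.EL

open Pool.Agent.H11.EL

theorem nj_mul_right {H : Type} [Group H] (a u v : H) (h : ∀ g : H, ⁅a, v⁆ * g = g * ⁅a, v⁆) :
    ⁅a, u * v⁆ = ⁅a, u⁆ * ⁅a, v⁆ := by
  have h1 : ⁅a, u * v⁆ = ⁅a, u⁆ * (u * ⁅a, v⁆ * u⁻¹) := by
    simp only [commutatorElement_def]
    group
  rw [h1, ← h u, mul_assoc, mul_inv_cancel, mul_one]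

theorem pf_nj : T_NJ := by
  intro H _ a b hab c hc z hz
  set Lc : Subgroup H := (⊤ : Subgroup H).lowerCentralSeries c with hLc
  set Ld : Subgroup H := (⊤ : Subgroup H).lowerCentralSeries (c + 1) with hLd
  have hd : Ld = ⁅Lc, (⊤ : Subgroup H)⁆ := rfl
  have hcen : ∀ x ∈ Ld, ∀ g : H, x * g = g * x := by
    intro x hx g
    have h1 : ⁅x, g⁆ ∈ (⊤ : Subgroup H).lowerCentralSeries (c + 2) :=
      Subgroup.commutator_mem_commutator hx (Subgroup.mem_top g)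
    rw [hc, Subgroup.mem_bot, commutatorElement_eq_one_iff_mul_comm] at h1
    exact h1
  have hmem : ∀ (g : H), ∀ u ∈ Lc, ⁅g, u⁆ ∈ Ld := by
    intro g u hu
    rw [← commutatorElement_inv]
    exact Ld.inv_mem (Subgroup.commutator_mem_commutator hu (Subgroup.mem_top g))
  have hmem' : ∀ u ∈ Lc, ∀ (g : H), ⁅u, g⁆ ∈ Ld := fun u hu g =>
    Subgroup.commutator_mem_commutator hu (Subgroup.mem_top g)
  have hmul : ∀ (g : H), ∀ u ∈ Lc, ∀ v ∈ Lc, ⁅g, u * v⁆ = ⁅g, u⁆ * ⁅g, v⁆ := fun g u hu v hv =>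
    nj_mul_right g u v (hcen _ (hmem g v hv))
  have hinv : ∀ (g : H), ∀ u ∈ Lc, ⁅g, u⁻¹⁆ = ⁅g, u⁆⁻¹ := by
    intro g u hu
    have h1 := hmul g u hu u⁻¹ (Lc.inv_mem hu)
    rw [mul_inv_cancel, commutatorElement_one_right] at h1
    exact (inv_eq_of_mul_eq_one_right h1.symm).symm
  let S : Subgroup H :=
    { carrier := {z | ∃ u ∈ Lc, ∃ v ∈ Lc, z = ⁅a, u⁆ * ⁅b, v⁆}
      one_mem' := ⟨1, Lc.one_mem, 1, Lc.one_mem, by simp⟩
      mul_mem' := by
        rintro x y ⟨u, hu, v, hv, rfl⟩ ⟨u', hu', v', hv', rfl⟩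
        refine ⟨u * u', Lc.mul_mem hu hu', v * v', Lc.mul_mem hv hv', ?_⟩
        rw [hmul a u hu u' hu', hmul b v hv v' hv']
        have h1 := hcen _ (hmem a u' hu') ⁅b, v⁆
        calc ⁅a, u⁆ * ⁅b, v⁆ * (⁅a, u'⁆ * ⁅b, v'⁆)
            = ⁅a, u⁆ * (⁅b, v⁆ * ⁅a, u'⁆) * ⁅b, v'⁆ := by group
          _ = ⁅a, u⁆ * (⁅a, u'⁆ * ⁅b, v⁆) * ⁅b, v'⁆ := by rw [h1]
          _ = ⁅a, u⁆ * ⁅a, u'⁆ * (⁅b, v⁆ * ⁅b, v'⁆) := by group
      inv_mem' := by
        rintro x ⟨u, hu, v, hv, rfl⟩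
        refine ⟨u⁻¹, Lc.inv_mem hu, v⁻¹, Lc.inv_mem hv, ?_⟩
        rw [hinv a u hu, hinv b v hv, mul_inv_rev]
        exact hcen _ (Ld.inv_mem (hmem b v hv)) _ }
  have hS : ∀ x, x ∈ S ↔ ∃ u ∈ Lc, ∃ v ∈ Lc, x = ⁅a, u⁆ * ⁅b, v⁆ := fun _ => Iff.rfl
  have hgen : ∀ u ∈ Lc, ∀ g : H, ⁅u, g⁆ ∈ S := by
    intro u hu g
    have hg : g ∈ Subgroup.closure ({a, b} : Set H) := by rw [hab]; trivial
    induction hg using Subgroup.closure_induction with
    | mem x hx =>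
      rcases hx with rfl | hx
      · exact ⟨u⁻¹, Lc.inv_mem hu, 1, Lc.one_mem, by
          rw [hinv x u hu, commutatorElement_inv, commutatorElement_one_right, mul_one]⟩
      · rw [Set.mem_singleton_iff] at hx
        subst hx
        exact ⟨1, Lc.one_mem, u⁻¹, Lc.inv_mem hu, by
          rw [hinv x u hu, commutatorElement_inv, commutatorElement_one_right, one_mul]⟩
    | one => rw [commutatorElement_one_right]; exact S.one_mem
    | mul x y _ _ hx hy =>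
      rw [nj_mul_right u x y (hcen _ (hmem' u hu y))]
      exact S.mul_mem hx hy
    | inv x _ hx =>
      have h1 := nj_mul_right u x x⁻¹ (hcen _ (hmem' u hu _))
      rw [mul_inv_cancel, commutatorElement_one_right] at h1
      rw [← inv_eq_of_mul_eq_one_right h1.symm]
      exact S.inv_mem hx
  have hle : Ld ≤ S := by
    rw [hd, Subgroup.commutator_le]
    exact fun u hu g _ => hgen u hu g
  exact hle hz

end Pool.Agent.H14.EL
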