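import Pool.Agent.H11.EL.Targets2

/-!
# el_modules, module SP
-/

set_option autoImplicit false

open scoped commutatorElement

namespace Pool.Agent.H14.EL

open Pool.Agent.H11.EL

/-- products of `j` elements of `S` -/
def spP {G : Type} [Group G] (S : Set G) (j : ℕ) : Set G :=
  {g | ∃ l : List G, l.length = j ∧ (∀ x ∈ l, x ∈ S) ∧ l.prod = g}

theorem spP_succ {G : Type} [Group G] (S : Set G) (j : ℕ) (g : G) :
    g ∈ spP S (j + 1) ↔ ∃ x ∈ S, ∃ h ∈ spP S j, g = x * h := by
  constructor
  · rintro ⟨l, hl, hS, rfl⟩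
    cases l with
    | nil => simp at hl
    | cons x l =>
      refine ⟨x, hS x List.mem_cons_self, l.prod, ⟨l, by simpa using hl,
        fun y hy => hS y (List.mem_cons_of_mem x hy), rfl⟩, by simp⟩
  · rintro ⟨x, hx, h, ⟨l, hl, hS, rfl⟩, rfl⟩
    refine ⟨x :: l, by simp [hl], ?_, by simp⟩
    intro y hy
    rcases List.mem_cons.1 hy with rfl | hy
    · exact hx
    · exact hS y hy

theorem spP_le {G : Type} [Group G] (S : Set G) (h1 : (1 : G) ∈ S) (j : ℕ) :
    spP S j ⊆ spP S (j + 1) := by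
  intro g hg
  rw [spP_succ]
  exact ⟨1, h1, g, hg, by simp⟩

theorem spP_mono {G : Type} [Group G] (S : Set G) (h1 : (1 : G) ∈ S) {i j : ℕ} (h : i ≤ j) :
    spP S i ⊆ spP S j := by
  induction h with
  | refl => exact subset_rfl
  | step _ ih => exact ih.trans (spP_le S h1 _)

theorem spP_stable {G : Type} [Group G] (S : Set G) (h1 : (1 : G) ∈ S) {j : ℕ}
    (h : spP S (j + 1) ⊆ spP S j) (i : ℕ) : spP S (j + i) ⊆ spP S j := by
  induction i with
  | zero => exact subset_rfl
  | succ i ih =>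
    intro g hg
    rw [← add_assoc, spP_succ] at hg
    obtain ⟨x, hx, k, hk, rfl⟩ := hg
    exact h ((spP_succ S j _).2 ⟨x, hx, k, ih hk, rfl⟩)

theorem spP_closure {G : Type} [Group G] (S : Set G) (h1 : (1 : G) ∈ S)
    (hinv : ∀ x ∈ S, x⁻¹ ∈ S) {g : G} (hg : g ∈ Subgroup.closure S) : ∃ j, g ∈ spP S j := by
  induction hg using Subgroup.closure_induction with
  | mem x hx => exact ⟨1, [x], rfl, by simpa using hx, by simp⟩
  | one => exact ⟨0, [], rfl, by simp, rfl⟩
  | mul x y _ _ hx hy =>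
    obtain ⟨i, l, hl, hS, rfl⟩ := hx
    obtain ⟨j, l', hl', hS', rfl⟩ := hy
    refine ⟨i + j, l ++ l', by simp [hl, hl'], ?_, by simp⟩
    intro z hz
    rcases List.mem_append.1 hz with hz | hz
    · exact hS z hz
    · exact hS' z hz
  | inv x _ hx =>
    obtain ⟨i, l, hl, hS, rfl⟩ := hx
    refine ⟨i, (l.map fun x => x⁻¹).reverse, by simpa using hl, ?_, ?_⟩
    · intro z hz
      rw [List.mem_reverse, List.mem_map] at hz
      obtain ⟨y, hy, rfl⟩ := hz
      exact hinv y (hS y hy)
    · rw [← List.prod_inv_reverse]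

theorem spP_sub {G : Type} [Group G] (S : Set G) (j : ℕ) :
    spP S j ⊆ (Subgroup.closure S : Set G) := by
  rintro g ⟨l, -, hS, rfl⟩
  exact Subgroup.list_prod_mem _ fun x hx => Subgroup.subset_closure (hS x hx)

theorem pf_sp : T_SP := by
  intro G _ S n h1 hinv hfin hcard g hg
  have hf : (Subgroup.closure S : Set G).Finite := hfin
  have hc : (Subgroup.closure S : Set G).ncard ≤ n := hcard
  have key : ∀ j : ℕ, spP S (j + 1) ⊆ spP S j → (Subgroup.closure S : Set G) ⊆ spP S j := by
    intro j hj x hx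
    obtain ⟨i, hi⟩ := spP_closure S h1 hinv hx
    exact spP_stable S h1 hj i (spP_mono S h1 (Nat.le_add_left i j) hi)
  have hn : (Subgroup.closure S : Set G) ⊆ spP S n := by
    by_contra hcon
    have hne : ∀ j ≤ n, ¬ spP S (j + 1) ⊆ spP S j := fun j hj h =>
      hcon ((key j h).trans (spP_mono S h1 hj))
    have hge : ∀ j ≤ n + 1, j + 1 ≤ (spP S j).ncard := by
      intro j
      induction j with
      | zero =>
        intro _
        have h0 : (spP S 0).Finite := hf.subset (spP_sub S 0)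
        have h2 : (spP S 0).Nonempty := ⟨1, [], rfl, by simp, rfl⟩
        exact (Set.ncard_pos h0).2 h2
      | succ j ih =>
        intro hj
        have h3 := ih (by omega)
        have h4 : spP S j ⊂ spP S (j + 1) := ⟨spP_le S h1 j, hne j (by omega)⟩
        have h5 := Set.ncard_lt_ncard h4 (hf.subset (spP_sub S _))
        omega
    have h6 := hge (n + 1) le_rfl
    have h7 := Set.ncard_le_ncard (spP_sub S (n + 1)) hf
    omega
  obtain ⟨l, hl, hS, rfl⟩ := hn hg
  subst hl
  refine ⟨l.get, fun i => hS _ (List.get_mem l i), ?_⟩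
  rw [List.ofFn_get]

end Pool.Agent.H14.EL
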