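import Pool.Agent.H11.EL.Targets2

/-! # el_modules, module XT: extensions -/

set_option autoImplicit false

open scoped commutatorElement
open Pool.Agent.H11.EL

namespace Pool.Agent.H14.EL

theorem xt_lift_map {r : ℕ} (w : FreeGroup (Fin r)) {G H : Type} [Group G] [Group H]
    (φ : G →* H) (f : Fin r → G) :
    φ (FreeGroup.lift f w) = FreeGroup.lift (fun i => φ (f i)) w := by
  have : φ.comp (FreeGroup.lift f) = FreeGroup.lift (fun i => φ (f i)) := by
    ext i; simp
  rw [← this]; rfl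

theorem xt_pi_pw (hNF : T_NF) {r : ℕ} (w : FreeGroup (Fin r)) (m : ℕ) (G : ℕ → Type)
    [∀ M, Group (G M)] (g : ∀ M, G M) (h : ∀ M, PW w m (g M)) :
    ∃ k, PW w k (g : ∀ M, G M) := by
  choose f f' hf using fun M => hNF r w m (G M) (g M) (h M)
  have key : g = (List.ofFn fun i : Fin m => FreeGroup.lift (fun j M => f M i j) w *
      (FreeGroup.lift (fun j M => f' M i j) w)⁻¹).prod := by
    funext M
    have h1 := map_list_prod (Pi.evalMonoidHom G M) (List.ofFn fun i : Fin m =>
      FreeGroup.lift (fun j M => f M i j) w * (FreeGroup.lift (fun j M => f' M i j) w)⁻¹)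
    have h2 : (List.ofFn fun i : Fin m => FreeGroup.lift (fun j M => f M i j) w *
      (FreeGroup.lift (fun j M => f' M i j) w)⁻¹).prod M = Pi.evalMonoidHom G M
        (List.ofFn fun i : Fin m => FreeGroup.lift (fun j M => f M i j) w *
          (FreeGroup.lift (fun j M => f' M i j) w)⁻¹).prod := rfl
    rw [h2, h1, List.map_ofFn, hf M]
    congr 2
    funext i
    rw [Function.comp_apply, map_mul, map_inv, xt_lift_map, xt_lift_map]
    rfl
  have h9 := PW.list (w := w) (k := 1 + 1) (List.ofFn fun i : Fin m =>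
      FreeGroup.lift (fun j M => f M i j) w * (FreeGroup.lift (fun j M => f' M i j) w)⁻¹)
      (by
        intro z hz
        rw [List.mem_ofFn] at hz
        obtain ⟨i, rfl⟩ := hz
        exact (PW.val _).mul (PW.val _).inv)
  rw [← key] at h9
  exact ⟨_, h9⟩

/-- the verbal subgroup -/
def xtV {r : ℕ} (w : FreeGroup (Fin r)) (G : Type) [Group G] : Subgroup G where
  carrier := {g | ∃ k, PW w k g}
  one_mem' := ⟨0, PW.one 0⟩
  mul_mem' := by
    rintro a b ⟨k, hk⟩ ⟨l, hl⟩
    exact ⟨k + l, hk.mul hl⟩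
  inv_mem' := by
    rintro a ⟨k, hk⟩
    exact ⟨k, hk.inv⟩

theorem xtV_normal {r : ℕ} (w : FreeGroup (Fin r)) (G : Type) [Group G] :
    (xtV w G).Normal := by
  constructor
  rintro a ⟨k, hk⟩ g
  exact ⟨k, hk.map (MulAut.conj g).toMonoidHom⟩

/-- products of values lift along surjective homomorphisms -/
theorem xt_lift {r : ℕ} (w : FreeGroup (Fin r)) {G H : Type} [Group G] [Group H]
    (φ : G →* H) (hφ : Function.Surjective φ) (k : ℕ) (h : H) (hh : PW w k h) :
    ∃ g : G, PW w k g ∧ φ g = h := by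
  obtain ⟨L, hl, hL, rfl⟩ := hh
  have key : ∀ L : List H, (∀ x ∈ L, x ∈ Set.range (fun f : Fin r → H => FreeGroup.lift f w) ∨
      x⁻¹ ∈ Set.range (fun f : Fin r → H => FreeGroup.lift f w)) →
      ∃ L' : List G, L'.length = L.length ∧
        (∀ x ∈ L', x ∈ Set.range (fun f : Fin r → G => FreeGroup.lift f w) ∨
          x⁻¹ ∈ Set.range (fun f : Fin r → G => FreeGroup.lift f w)) ∧ L'.map φ = L := by
    intro L
    induction L with
    | nil => exact fun _ => ⟨[], rfl, by simp, rfl⟩
    | cons x L ih =>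
      intro hx
      obtain ⟨L', h1, h2, h3⟩ := ih fun y hy => hx y (List.mem_cons_of_mem x hy)
      have hval : ∀ f : Fin r → H, ∃ F : Fin r → G, φ (FreeGroup.lift F w) = FreeGroup.lift f w := by
        intro f
        choose F hF using fun i => hφ (f i)
        refine ⟨F, ?_⟩
        rw [xt_lift_map]
        congr 2
        funext i
        exact hF i
      rcases hx x List.mem_cons_self with ⟨f, hf⟩ | ⟨f, hf⟩
      · obtain ⟨F, hF⟩ := hval f
        refine ⟨FreeGroup.lift F w :: L', by simp [h1], ?_, ?_⟩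
        · intro z hz
          rcases List.mem_cons.1 hz with rfl | hz
          · exact Or.inl ⟨F, rfl⟩
          · exact h2 z hz
        · rw [List.map_cons, h3, hF]
          exact congrArg (· :: L) hf
      · obtain ⟨F, hF⟩ := hval f
        refine ⟨(FreeGroup.lift F w)⁻¹ :: L', by simp [h1], ?_, ?_⟩
        · intro z hz
          rcases List.mem_cons.1 hz with rfl | hz
          · exact Or.inr ⟨F, (inv_inv _).symm⟩
          · exact h2 z hz
        · rw [List.map_cons, h3, map_inv, hF]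
          have h4 : (FreeGroup.lift f w)⁻¹ = x := by
            rw [inv_eq_iff_eq_inv]
            exact hf
          rw [h4]
  obtain ⟨L', h1, h2, h3⟩ := key L hL
  exact ⟨L'.prod, ⟨L', by rw [h1]; exact hl, h2, rfl⟩, by rw [map_list_prod, h3]⟩

theorem pf_xt : T_NF → T_XT := by
  intro hNF r w hw m m'
  by_contra hcon
  push Not at hcon
  choose G grp N hNn hN hQ x y hxy using hcon
  let _ : ∀ M, Group (G M) := grp
  have hV : (xtV w (∀ M, G M)).Normal := xtV_normal w _
  let N' : Subgroup (∀ M, G M) := Subgroup.pi Set.univ N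
  have hN' : ∀ a ∈ N', ∀ M, a M ∈ N M := fun a ha M => ha M (Set.mem_univ M)
  let mk := QuotientGroup.mk' (xtV w (∀ M, G M))
  have hmk : ∀ a b : ∀ M, G M, ⁅a, b⁆ ∈ xtV w (∀ M, G M) ↔ mk a * mk b = mk b * mk a := by
    intro a b
    rw [← QuotientGroup.eq_one_iff]
    change mk ⁅a, b⁆ = 1 ↔ _
    rw [map_commutatorElement, commutatorElement_eq_one_iff_mul_comm]
  have hNab : ∀ x ∈ N'.map mk, ∀ y ∈ N'.map mk, x * y = y * x := by
    rintro _ ⟨a, ha, rfl⟩ _ ⟨b, hb, rfl⟩
    rw [← hmk]
    exact xt_pi_pw hNF w m G _ fun M => hN M _ (hN' a ha M) _ (hN' b hb M)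
  have hcomm : ∀ p q : (∀ M, G M) ⧸ xtV w (∀ M, G M), ⁅p, q⁆ ∈ N'.map mk := by
    intro p q
    obtain ⟨a, rfl⟩ := QuotientGroup.mk'_surjective _ p
    obtain ⟨b, rfl⟩ := QuotientGroup.mk'_surjective _ q
    choose v hv hv' using fun M => xt_lift w (QuotientGroup.mk' (N M))
      (QuotientGroup.mk'_surjective (N M)) m'
      ⁅QuotientGroup.mk' (N M) (a M), QuotientGroup.mk' (N M) (b M)⁆ (hQ M _ _)
    have hvV : (v : ∀ M, G M) ∈ xtV w (∀ M, G M) := xt_pi_pw hNF w m' G v hv
    have hn : v⁻¹ * ⁅a, b⁆ ∈ N' := by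
      intro M _
      have h1 := hv' M
      rw [← map_commutatorElement] at h1
      exact QuotientGroup.eq.1 h1
    refine ⟨v⁻¹ * ⁅a, b⁆, hn, ?_⟩
    have h2 : mk v = 1 := (QuotientGroup.eq_one_iff _).2 hvV
    rw [map_mul, map_inv, h2, inv_one, one_mul, map_commutatorElement]
  have hder : derivedSeries ((∀ M, G M) ⧸ xtV w (∀ M, G M)) 2 = ⊥ := by
    have h1 : derivedSeries ((∀ M, G M) ⧸ xtV w (∀ M, G M)) 1 ≤ N'.map mk := by
      rw [derivedSeries_succ, Subgroup.commutator_le]
      exact fun p _ q _ => hcomm p q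
    rw [derivedSeries_succ, eq_bot_iff]
    refine (Subgroup.commutator_mono h1 h1).trans ?_
    rw [Subgroup.commutator_le]
    intro p hp q hq
    rw [Subgroup.mem_bot, commutatorElement_eq_one_iff_mul_comm]
    exact hNab p hp q hq
  have hlaw : ∀ f : Fin r → (∀ M, G M) ⧸ xtV w (∀ M, G M), FreeGroup.lift f w = 1 := by
    intro f
    choose F hF using fun i => QuotientGroup.mk'_surjective (xtV w (∀ M, G M)) (f i)
    have h1 : f = fun i => mk (F i) := by
      funext i
      exact (hF i).symm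
    rw [h1, ← xt_lift_map]
    exact (QuotientGroup.eq_one_iff _).2 ⟨1, PW.val F⟩
  have hab := hw _ hder hlaw (mk x) (mk y)
  rw [← hmk] at hab
  obtain ⟨k, hk⟩ := hab
  exact hxy k (hk.map (Pi.evalMonoidHom G k))

end Pool.Agent.H14.EL
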